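import Mathlib
import Pool.Agent.Work.MP_c73f8e_nt.Defs
import Pool.Agent.Work.MP_c73f8e_nt.Final

/-!
# Perfect restricted `s`-bases of size `2s+1`

Let `s ≥ 1` and let `G` be an abelian group with a perfect restricted `s`-basis `A` of size `2s+1`
(then `G` has order `2^(2s)`). Then `G` is isomorphic to `Z_2^(2s)` or to `Z_2^(2s-2) × Z_4`.

Outline of the proof. Every `s`-subset `Q` of `A` satisfies `ΣQ + ΣM = ΣA` for some `M ⊆ Q`. Fix
`i ∈ A`; for a partition `A = {i} ∪ Q ∪ Q'` this gives a defect set `R = (Q \ M) ∪ (Q' \ M')` with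
`2 i + ΣR = 0`, so that `R` is one of two sets, a small one and a large one. A swap argument shows
that either `2 i = 0`, or all defect sets are equal to a single set `{h}`; in the second case
`2 k = h` for every `k ∈ A` other than `i, h`, and `2 h = 0`.
-/

open MPc73f8e in
/-- Full negative answer to Q1. -/
theorem Pool.Agent.Results.MP_c73f8e_nt.Classification.result
    {G : Type*} [AddCommGroup G] (s : ℕ) (hs : 1 ≤ s) (A : Finset G) (hA : A.card = 2 * s + 1)
    (h : IsPerfectBasis s A) :
    Nonempty (G ≃+ (Fin (2 * s) → ZMod 2)) ∨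
      Nonempty (G ≃+ (Fin (2 * s - 2) → ZMod 2) × ZMod 4) := by
  classical
  exact classification h hs hA
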